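import Pool.Agent.H53.NR.Targets

/-!
# Free amalgamation and finite boundedness

A finitely bounded structure whose age has free amalgamation is determined by its irreducible
substructures of bounded size.
-/

set_option autoImplicit false

namespace Pool.Agent.H77.NR

open Pool.Agent.H68.BP Pool.Agent.H58.SF Pool.Agent.H53.GC Pool.Agent.H53.NR

/-- A substructure on a subtype embeds if each enumeration of it embeds. -/
theorem fb1_sub {τ : Sig} {B : Type} (𝔹 : Str τ B) {m : ℕ} (𝕎 : Str τ (Fin m))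
    (hmin : ∀ (k : ℕ) (r : Fin k → Fin m), k < m → Function.Injective r →
      Embeds (pull 𝕎 r) 𝔹) (x : Fin m) :
    Embeds (pull 𝕎 (fun w : ({w | w ≠ x} : Set (Fin m)) => (w : Fin m))) 𝔹 := by
  classical
  set S : Set (Fin m) := {w | w ≠ x} with hS
  have hcard : Fintype.card S < m := by
    have h1 : Fintype.card S < Fintype.card (Fin m) :=
      Fintype.card_lt_of_injective_of_notMem (fun w : S => (w : Fin m)) Subtype.val_injective
        (b := x) (by rintro ⟨w, hw⟩; exact w.2 hw)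
    simpa using h1
  obtain ⟨f, hf1, hf2⟩ := hmin (Fintype.card S)
    (fun i => ((Fintype.equivFin S).symm i : Fin m)) hcard
    (Subtype.val_injective.comp (Fintype.equivFin S).symm.injective)
  refine ⟨fun w => f (Fintype.equivFin S w), ?_, ?_⟩
  · intro a b hab
    exact (Fintype.equivFin S).injective (hf1 hab)
  · intro l z
    have h2 := hf2 l (fun i => Fintype.equivFin S (z i))
    simp only [pull, Equiv.symm_apply_apply] at h2 ⊢
    exact h2

/-- the target `T_FB1` -/
theorem pf_FB1 : T_FB1 := by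
  classical
  intro τ B 𝔹 hfb hfree
  obtain ⟨N, hN⟩ := hfb
  have hbd : ∃ M, 2 ≤ M ∧ ∀ 𝕐 ∈ N, 𝕐.1 ≤ M := by
    clear hN
    induction N with
    | nil => exact ⟨2, le_refl _, by simp⟩
    | cons a l ih =>
      obtain ⟨M, hM, hM'⟩ := ih
      refine ⟨max M a.1, le_trans hM (le_max_left _ _), ?_⟩
      intro 𝕐 h𝕐
      rcases List.mem_cons.1 h𝕐 with h | h
      · rw [h]; exact le_max_right _ _
      · exact le_trans (hM' 𝕐 h) (le_max_left _ _)
  obtain ⟨M, hM2, hM⟩ := hbd
  refine ⟨M, hM2, ?_⟩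
  intro n 𝕏 hirr
  by_contra hne
  have hex : ∃ m : ℕ, ∃ s : Fin m → Fin n, Function.Injective s ∧ ¬ Embeds (pull 𝕏 s) 𝔹 :=
    ⟨n, id, Function.injective_id, hne⟩
  obtain ⟨s, hs, hs'⟩ := Nat.find_spec hex
  have hmin' : ∀ k < Nat.find hex, ¬ ∃ s : Fin k → Fin n, Function.Injective s ∧
      ¬ Embeds (pull 𝕏 s) 𝔹 := fun k hk => Nat.find_min hex hk
  generalize Nat.find hex = m at s hs hs' hmin'
  have hmin : ∀ (k : ℕ) (r : Fin k → Fin m), k < m → Function.Injective r →
      Embeds (pull (pull 𝕏 s) r) 𝔹 := by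
    intro k r hk hr
    by_contra hcon
    exact hmin' k hk ⟨fun i => s (r i), hs.comp hr, hcon⟩
  -- a bound embeds, and it has at least `m` elements
  have hmM : m ≤ M := by
    have h1 : ¬ ∀ 𝕐 ∈ N, ¬ Embeds 𝕐.2 (pull 𝕏 s) := fun h => hs' ((hN m (pull 𝕏 s)).2 h)
    push Not at h1
    obtain ⟨𝕐, h𝕐, g, hg1, hg2⟩ := h1
    refine le_trans ?_ (hM 𝕐 h𝕐)
    by_contra hlt
    push Not at hlt
    obtain ⟨f, hf1, hf2⟩ := hmin 𝕐.1 g hlt hg1
    have h3 : Embeds 𝕐.2 𝔹 := by
      refine ⟨f, hf1, fun l z => ?_⟩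
      rw [hg2 l z]
      exact hf2 l z
    exact (hN 𝕐.1 𝕐.2).1 h3 𝕐 h𝕐 ⟨id, Function.injective_id, fun l z => Iff.rfl⟩
  -- the minimal substructure is reducible
  have hred : ¬ Irreducible (pull 𝕏 s) := fun h => hs' (hirr m s hmM hs h)
  unfold Pool.Agent.H53.NR.Irreducible at hred
  push Not at hred
  obtain ⟨x, y, hxy, hno⟩ := hred
  refine hs' (hfree m (pull 𝕏 s) {w | w ≠ x} {w | w ≠ y} ?_
    (fb1_sub 𝔹 (pull 𝕏 s) hmin x) (fb1_sub 𝔹 (pull 𝕏 s) hmin y) ?_)
  · intro w
    by_cases hw : w = x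
    · right
      show w ≠ y
      rw [hw]; exact hxy
    · left
      exact hw
  · intro l z hz
    by_cases hzx : ∃ i, z i = x
    · right
      exact hno l z hz hzx
    · left
      push Not at hzx
      exact hzx

end Pool.Agent.H77.NR
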